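import Pool.Agent.Work.MP_db9399_all.Interface

/-!
# Block GUARD (owner helper84): exponential moments in a product space
-/

set_option autoImplicit false

namespace Pool.Agent.Work.MP_db9399_sw

open Finset Classical
open Pool.Agent.Work.MP_db9399_all (pr DepOnI PackI)

universe u

namespace GUARDAux

variable {J : Type u} [Fintype J] {M : ℕ}

theorem card_pi : (Fintype.card (J → Fin M) : ℝ) = (M : ℝ) ^ (Fintype.card J) := by
  rw [Fintype.card_fun, Fintype.card_fin]
  push_cast
  rfl

theorem pr_nonneg (A : (J → Fin M) → Prop) : 0 ≤ pr A := by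
  unfold pr
  positivity

theorem pr_mono {A B : (J → Fin M) → Prop} (h : ∀ f, A f → B f) : pr A ≤ pr B := by
  unfold pr
  refine div_le_div_of_nonneg_right ?_ (by positivity)
  exact_mod_cast card_le_card fun f hf => by
    rw [mem_filter] at hf ⊢
    exact ⟨hf.1, h f hf.2⟩

theorem card_or {α : Type u} [Fintype α] (A B : α → Prop) (i : DecidablePred fun a => A a ∨ B a)
    (i1 : DecidablePred A) (i2 : DecidablePred B) :
    (@Finset.filter α (fun a => A a ∨ B a) i univ).card ≤
      (@Finset.filter α A i1 univ).card + (@Finset.filter α B i2 univ).card := by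
  refine (card_le_card (fun f hf => ?_)).trans (card_union_le _ _)
  rw [mem_union, mem_filter, mem_filter]
  have hf' := @mem_filter α (fun a => A a ∨ B a) i univ f
  rcases (hf'.1 hf).2 with h | h
  · exact Or.inl ⟨mem_univ f, h⟩
  · exact Or.inr ⟨mem_univ f, h⟩

theorem pr_or (A B : (J → Fin M) → Prop) : pr (fun f => A f ∨ B f) ≤ pr A + pr B := by
  unfold pr
  rw [← add_div]
  refine div_le_div_of_nonneg_right ?_ (by positivity)
  exact_mod_cast card_or A B _ _ _

/-- exponential moments -/
theorem mgf (hM : 0 < M) (g : J → Fin M → ℝ) (q : J → ℝ) (t : ℝ)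
    (hq : ∀ y, ∑ j, Real.exp (g y j) ≤ M * Real.exp (q y)) :
    pr (fun f : J → Fin M => t ≤ ∑ y, g y (f y)) ≤ Real.exp ((∑ y, q y) - t) := by
  have hM' : (0 : ℝ) < M := by exact_mod_cast hM
  have h2 : ((univ.filter (fun f : J → Fin M => t ≤ ∑ y, g y (f y))).card : ℝ) ≤
      Real.exp (-t) * ∑ f : J → Fin M, ∏ y, Real.exp (g y (f y)) := by
    rw [Finset.mul_sum, Finset.card_filter]
    push_cast
    refine Finset.sum_le_sum fun f _ => ?_
    rw [← Real.exp_sum, ← Real.exp_add]
    split_ifs with hc
    · exact Real.one_le_exp (by linarith)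
    · positivity
  have h3 : (∑ f : J → Fin M, ∏ y, Real.exp (g y (f y))) = ∏ y, ∑ j, Real.exp (g y j) := by
    rw [Finset.prod_univ_sum]
    simp
  have h5 : (∏ y, ∑ j, Real.exp (g y j)) ≤
      (M : ℝ) ^ (Fintype.card J) * Real.exp (∑ y, q y) := by
    calc (∏ y, ∑ j, Real.exp (g y j))
        ≤ ∏ y, (M * Real.exp (q y)) := by
          apply Finset.prod_le_prod
          · intro y _
            exact Finset.sum_nonneg fun j _ => (Real.exp_pos _).le
          · intro y _
            exact hq y
      _ = (M : ℝ) ^ (Fintype.card J) * Real.exp (∑ y, q y) := by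
          rw [Finset.prod_mul_distrib, Real.exp_sum]
          simp
  unfold pr
  rw [div_le_iff₀ (by rw [card_pi]; positivity), card_pi]
  calc _ ≤ Real.exp (-t) * ((M : ℝ) ^ (Fintype.card J) * Real.exp (∑ y, q y)) := by
        refine h2.trans ?_
        rw [h3]
        exact mul_le_mul_of_nonneg_left h5 (by positivity)
    _ = Real.exp ((∑ y, q y) - t) * (M : ℝ) ^ (Fintype.card J) := by
        rw [show (∑ y, q y) - t = -t + ∑ y, q y by ring, Real.exp_add]
        ring

/-- the sum of the exponentials of a scaled indicator -/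
theorem sum_exp (hM : 0 < M) (B : Finset (Fin M)) (x c : ℝ) (hc : Real.exp x - 1 ≤ c) :
    ∑ j : Fin M, Real.exp (if j ∈ B then x else 0) ≤
      M * Real.exp (c * ((B.card : ℝ) / M)) := by
  have hM' : (0 : ℝ) < M := by exact_mod_cast hM
  have e1 : ∑ j : Fin M, Real.exp (if j ∈ B then x else 0) =
      M + (Real.exp x - 1) * B.card := by
    have : ∀ j : Fin M, Real.exp (if j ∈ B then x else 0) =
        1 + (Real.exp x - 1) * (if j ∈ B then 1 else 0) := by
      intro j
      split_ifs
      · ring
      · simp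
    rw [Finset.sum_congr rfl (fun j _ => this j), Finset.sum_add_distrib, ← Finset.mul_sum]
    simp
  rw [e1]
  have e2 := Real.add_one_le_exp (c * ((B.card : ℝ) / M))
  have e3 : (M : ℝ) * (c * ((B.card : ℝ) / M) + 1) = M + c * B.card := by
    field_simp
    ring
  have e4 := mul_le_mul_of_nonneg_left e2 hM'.le
  rw [e3] at e4
  have e5 : (Real.exp x - 1) * (B.card : ℝ) ≤ c * B.card :=
    mul_le_mul_of_nonneg_right hc (by positivity)
  linarith

/-- the number of hits as a sum -/
theorem sum_hits (S : Finset J) (B : J → Finset (Fin M)) (x : ℝ) (f : J → Fin M) :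
    ∑ y, (if y ∈ S then (if f y ∈ B y then x else 0) else 0) =
      x * ((S.filter (fun y => f y ∈ B y)).card : ℝ) := by
  rw [← Finset.sum_filter, Finset.filter_mem_eq_inter, Finset.univ_inter, ← Finset.sum_filter,
    Finset.sum_const, nsmul_eq_mul, mul_comm]

/-- the mean number of hits -/
noncomputable def mean (S : Finset J) (B : J → Finset (Fin M)) : ℝ :=
  ∑ y ∈ S, ((B y).card : ℝ) / M

/-- hits, exponential moment with the parameter `x` -/
theorem hits (hM : 0 < M) (S : Finset J) (B : J → Finset (Fin M)) (x c t : ℝ)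
    (hc : Real.exp x - 1 ≤ c) :
    pr (fun f : J → Fin M => t ≤ x * ((S.filter (fun y => f y ∈ B y)).card : ℝ)) ≤
      Real.exp (c * mean S B - t) := by
  have h := mgf hM (fun y j => if y ∈ S then (if j ∈ B y then x else 0) else 0)
    (fun y => if y ∈ S then c * (((B y).card : ℝ) / M) else 0) t (fun y => by
      by_cases hy : y ∈ S
      · simp only [if_pos hy]
        exact sum_exp hM (B y) x c hc
      · simp only [if_neg hy]
        simp)
  simp only [sum_hits] at h
  have e : (∑ y, if y ∈ S then c * (((B y).card : ℝ) / M) else 0) = c * mean S B := by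
    unfold mean
    rw [← Finset.sum_filter, Finset.filter_mem_eq_inter, Finset.univ_inter, Finset.mul_sum]
  rw [e] at h
  exact h

theorem exp_sub_one_le {s : ℝ} (h0 : -1 ≤ s) (h1 : s ≤ 1) : Real.exp s - 1 ≤ s + s ^ 2 := by
  have h := Real.abs_exp_sub_one_sub_id_le (x := s) (abs_le.2 ⟨h0, h1⟩)
  have := (abs_le.1 h).2
  linarith

/-- many hits are unlikely -/
theorem up (hM : 0 < M) (S : Finset J) (B : J → Finset (Fin M)) (s δ : ℝ) (h0 : 0 ≤ s)
    (h1 : s ≤ 1) :
    pr (fun f : J → Fin M => mean S B + δ ≤ ((S.filter (fun y => f y ∈ B y)).card : ℝ)) ≤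
      Real.exp (s ^ 2 * mean S B - s * δ) := by
  refine (pr_mono fun f hf => ?_).trans
    ((hits hM S B s (s + s ^ 2) (s * (mean S B + δ)) (exp_sub_one_le (by linarith) h1)).trans
      (le_of_eq ?_))
  · exact mul_le_mul_of_nonneg_left hf h0
  · congr 1
    ring

/-- few hits are unlikely -/
theorem lo (hM : 0 < M) (S : Finset J) (B : J → Finset (Fin M)) (s δ : ℝ) (h0 : 0 ≤ s)
    (h1 : s ≤ 1) :
    pr (fun f : J → Fin M => ((S.filter (fun y => f y ∈ B y)).card : ℝ) ≤ mean S B - δ) ≤
      Real.exp (s ^ 2 * mean S B - s * δ) := by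
  refine (pr_mono fun f hf => ?_).trans
    ((hits hM S B (-s) (-s + (-s) ^ 2) (-s * (mean S B - δ))
      (exp_sub_one_le (by linarith) (by linarith))).trans (le_of_eq ?_))
  · have := mul_le_mul_of_nonneg_left hf h0
    linarith
  · congr 1
    ring

/-- weighted hits -/
theorem wt_hits (hM : 0 < M) (S : Finset J) (B : J → Finset (Fin M)) (a : J → ℝ) (A t : ℝ)
    (hA : 0 < A) (ha0 : ∀ y ∈ S, 0 ≤ a y) (haA : ∀ y ∈ S, a y ≤ A) :
    pr (fun f : J → Fin M => t ≤ ∑ y ∈ S, (if f y ∈ B y then a y else 0)) ≤
      Real.exp ((2 * (∑ y ∈ S, a y * (((B y).card : ℝ) / M)) - t) / A) := by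
  have h := mgf hM (fun y j => if y ∈ S then (if j ∈ B y then a y / A else 0) else 0)
    (fun y => if y ∈ S then 2 * (a y / A) * (((B y).card : ℝ) / M) else 0) (t / A) (fun y => by
      by_cases hy : y ∈ S
      · simp only [if_pos hy]
        refine sum_exp hM (B y) (a y / A) (2 * (a y / A)) ?_
        have hx0 : 0 ≤ a y / A := div_nonneg (ha0 y hy) hA.le
        have hx1 : a y / A ≤ 1 := (div_le_one hA).2 (haA y hy)
        have := exp_sub_one_le (s := a y / A) (by linarith) hx1
        nlinarith
      · simp only [if_neg hy]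
        simp)
  refine (pr_mono fun f hf => ?_).trans (h.trans (le_of_eq ?_))
  · have e : ∑ y, (if y ∈ S then (if f y ∈ B y then a y / A else 0) else 0) =
        (∑ y ∈ S, (if f y ∈ B y then a y else 0)) / A := by
      rw [← Finset.sum_filter, Finset.filter_mem_eq_inter, Finset.univ_inter, Finset.sum_div]
      refine Finset.sum_congr rfl fun y _ => ?_
      split_ifs
      · rfl
      · simp
    rw [e]
    exact div_le_div_of_nonneg_right hf hA.le
  · congr 1
    rw [← Finset.sum_filter, Finset.filter_mem_eq_inter, Finset.univ_inter, sub_div,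
      Finset.mul_sum, Finset.sum_div]
    congr 1
    refine Finset.sum_congr rfl fun y _ => ?_
    ring

/-- two coordinates -/
theorem two (hM : 0 < M) (B : J → Finset (Fin M)) {v w : J} (hvw : v ≠ w) :
    pr (fun f : J → Fin M => f v ∈ B v ∧ f w ∈ B w) =
      ((B v).card : ℝ) / M * (((B w).card : ℝ) / M) := by
  have hM' : (0 : ℝ) < M := by exact_mod_cast hM
  set h : J → Fin M → ℝ := fun y j => if (y = v ∨ y = w) → j ∈ B y then 1 else 0 with hh
  have h1 : pr (fun f : J → Fin M => f v ∈ B v ∧ f w ∈ B w) =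
      (∑ f : J → Fin M, ∏ y, h y (f y)) / (Fintype.card (J → Fin M) : ℝ) := by
    unfold pr
    refine congrArg (· / (Fintype.card (J → Fin M) : ℝ)) ?_
    rw [Finset.card_filter]
    push_cast
    refine Finset.sum_congr rfl fun f _ => ?_
    by_cases hf : f v ∈ B v ∧ f w ∈ B w
    · rw [if_pos hf]
      refine (Finset.prod_eq_one fun y _ => ?_).symm
      rw [hh]
      refine if_pos ?_
      rintro (rfl | rfl)
      · exact hf.1
      · exact hf.2
    · rw [if_neg hf]
      by_cases hv : f v ∈ B v
      · have hw : f w ∉ B w := fun hw => hf ⟨hv, hw⟩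
        refine (Finset.prod_eq_zero (mem_univ w) ?_).symm
        rw [hh]
        exact if_neg fun hcon => hw (hcon (Or.inr rfl))
      · refine (Finset.prod_eq_zero (mem_univ v) ?_).symm
        rw [hh]
        exact if_neg fun hcon => hv (hcon (Or.inl rfl))
  have h3 : (∑ f : J → Fin M, ∏ y, h y (f y)) = ∏ y, ∑ j, h y j := by
    rw [Finset.prod_univ_sum]
    simp
  have h4 : ∀ y, ∑ j, h y j = M * (if y = v then ((B v).card : ℝ) / M else 1) *
      (if y = w then ((B w).card : ℝ) / M else 1) := by
    intro y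
    by_cases hy : y = v
    · subst hy
      rw [if_pos rfl, if_neg hvw, mul_one]
      rw [mul_div_cancel₀ _ hM'.ne']
      have : ∀ j, h y j = if j ∈ B y then 1 else 0 := by
        intro j
        rw [hh]
        simp
      rw [Finset.sum_congr rfl fun j _ => this j]
      simp
    · rw [if_neg hy, mul_one]
      by_cases hy2 : y = w
      · subst hy2
        rw [if_pos rfl, mul_div_cancel₀ _ hM'.ne']
        have : ∀ j, h y j = if j ∈ B y then 1 else 0 := by
          intro j
          rw [hh]
          simp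
        rw [Finset.sum_congr rfl fun j _ => this j]
        simp
      · rw [if_neg hy2, mul_one]
        have : ∀ j, h y j = 1 := by
          intro j
          rw [hh]
          exact if_pos fun hcon => by
            rcases hcon with h | h
            · exact absurd h hy
            · exact absurd h hy2
        rw [Finset.sum_congr rfl fun j _ => this j]
        simp
  rw [h1, h3, Finset.prod_congr rfl fun y _ => h4 y, Finset.prod_mul_distrib,
    Finset.prod_mul_distrib, card_pi, Finset.prod_const, Finset.card_univ]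
  simp only [Finset.prod_ite_eq', Finset.mem_univ, if_true]
  have : (M : ℝ) ^ Fintype.card J ≠ 0 := pow_ne_zero _ hM'.ne'
  field_simp

/-- a package with one event -/
theorem pack1 {T W : ℝ} {Sc Q : Finset J} {E P : (J → Fin M) → Prop} (hd : DepOnI Q E)
    (hn : Q.Nonempty) (hs : Q ⊆ Sc) (hW : pr E * Real.exp (2 * T * (Q.card : ℝ)) ≤ W)
    (hP : ∀ f, ¬ E f → P f) : PackI T Sc W P := by
  refine ⟨PUnit.{u + 1}, inferInstance, fun _ => Q, fun _ => E, fun _ => hd, fun _ => hn,
    fun _ => hs, ?_, fun f hf => hP f (hf PUnit.unit)⟩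
  simpa using hW

/-- a package without events -/
theorem pack0 {T W : ℝ} {Sc : Finset J} {P : (J → Fin M) → Prop} (hW : 0 ≤ W)
    (hP : ∀ f, P f) : PackI T Sc W P := by
  refine ⟨PEmpty.{u + 1}, inferInstance, fun k => k.elim, fun k => k.elim, fun k => k.elim,
    fun k => k.elim, fun k => k.elim, ?_, fun f _ => hP f⟩
  simpa using hW

end GUARDAux

end Pool.Agent.Work.MP_db9399_sw
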