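import Pool.Agent.Work.MP_db9399_sw_helper84.TYPES

/-! PHASE 2 (short spots), block NRMV: near-regular graphs with given own colours (adapted from
helper99's block NRM and helper67's block NRMC; helper84). -/

set_option autoImplicit false

namespace Pool.Agent.Work.MP_db9399_sw.helper84

open Finset Classical
open Pool.Agent.Work.MP_db9399_all (nb)
open Pool.Agent.Work.MP_db9399_px (LWalk hit ee)
open Pool.Agent.Work.MP_db9399_dn (NB IsMat Tot)
open Pool.Agent.Work.MP_db9399_bg (den cl LabP Good PN IsPat en enP REnv Spr Lbl bx c3f c3 HPre Ix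
  mem_cl mem_nb)
open Pool.Agent.Work.MP_db9399_lc (BL)
open Pool.Agent.Work.MP_db9399_lc.helper99 (exists_colours)
open Pool.Agent.Work.MP_db9399_lh (Cr Lh ce su kp io sp pt cr inM rP rR qr pr qe fq f0 ft EndSX
  Vd UW VCol P0R PeR bb mem_bb den_bb card_core card_zmod)
open Pool.Agent.Work.MP_db9399_lh.helper99 (equi exists_tp)
open Pool.Agent.Work.MP_db9399_ot (BH Cls Sit NDec UPar Lft)
open Pool.Agent.Work.MP_db9399_ot.helper99 (uPar_mono card_class numbers)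
open Pool.Agent.Work.MP_db9399_sw

universe u

theorem oneRound2_mono {V : Type u} [Fintype V] {l m r K K1 S : ℕ} {g δ δ' : ℝ}
    {G : SimpleGraph V} {D d : ℕ} {lab : V → Lh l m r K K1 S}
    (h : OneRound2 g δ G D d lab) (hd : δ' ≤ δ) : OneRound2 g δ' G D d lab := by
  intro τ i F a hh U J lg Oi hτ hR
  exact h τ i F a hh U J lg Oi hτ (hR.mono (by unfold qr pr; positivity) hd)

/-- truncated palettes -/
theorem exists_trunc {A : Type} (Y : Finset A) (a : ℝ) (N d : ℕ) (hN : 0 < N)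
    (h : a ≤ N * (Y.card : ℝ)) (h0 : 0 ≤ a) (ha : a ≤ d) (hd : 2 * N ≤ d) :
    ∃ Y' ⊆ Y, a ≤ N * (Y'.card : ℝ) ∧ 2 * (N * Y'.card) ≤ 3 * d := by
  have hN' : (0 : ℝ) < N := by exact_mod_cast hN
  have h1 : a / N ≤ Y.card := by
    rw [div_le_iff₀ hN']
    linarith
  obtain ⟨Y', hY, hc⟩ := Finset.exists_subset_card_eq (s := Y) (n := ⌈a / N⌉₊)
    (Nat.ceil_le.mpr h1)
  refine ⟨Y', hY, ?_, ?_⟩
  · rw [hc]
    have h2 := Nat.le_ceil (a / N)
    rw [div_le_iff₀ hN'] at h2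
    linarith
  · rw [hc]
    have h2 : (⌈a / N⌉₊ : ℝ) < a / N + 1 := Nat.ceil_lt_add_one (by positivity)
    have h3 : (N : ℝ) * ⌈a / N⌉₊ ≤ a + N := by
      have h4 := mul_le_mul_of_nonneg_left h2.le hN'.le
      rw [mul_add, mul_div_cancel₀ _ hN'.ne', mul_one] at h4
      exact h4
    have h5 : (2 : ℝ) * N ≤ d := by exact_mod_cast hd
    have h6 : (2 : ℝ) * (N * ⌈a / N⌉₊) ≤ 3 * d := by linarith
    exact_mod_cast h6

/-- the tests for the degree bound `2 d` -/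
theorem tq_two {V : Type u} [Fintype V] {T : Type} {J : Type u} [Fintype J] {s : ℝ} {d : ℕ}
    {Φ : J → (V → T) → ℝ} {c : J → V → ℝ} {t : J → ℝ} (hs : 0 < s) (hd : 2 ≤ d)
    (h : TQ s d Φ c t) : TQ (s / 4) (2 * d) Φ c t where
  c0 := h.c0
  lip := h.lip
  num v := (h.num v).trans (Nat.pow_le_pow_left (by omega) 10)
  t0 := h.t0
  big j := by
    refine le_trans ?_ (h.big j)
    apply mul_le_mul_of_nonneg_right _ (sum_nonneg (fun v _ => sq_nonneg _))
    have hd' : (2 : ℝ) ≤ d := by exact_mod_cast hd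
    have hd0 : (0 : ℝ) < d := by linarith
    have h1 : Real.log ((2 * d : ℕ) : ℝ) ≤ 2 * Real.log d := by
      push_cast
      rw [Real.log_mul (by norm_num) hd0.ne']
      have := Real.log_le_log (by norm_num) hd'
      linarith
    have h0 : 0 ≤ Real.log ((2 * d : ℕ) : ℝ) := Real.log_natCast_nonneg _
    have h2 : Real.log ((2 * d : ℕ) : ℝ) ^ 2 ≤ (2 * Real.log d) ^ 2 := pow_le_pow_left₀ h0 h1 2
    obtain ⟨N, hN⟩ : ∃ N : ℝ, N = ((univ.filter (fun v => c j v ≠ 0)).card : ℝ) := ⟨_, rfl⟩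
    have hN0 : 0 ≤ N := by rw [hN]; exact Nat.cast_nonneg _
    rw [← hN]
    have h3 : N / ((2 * d : ℕ) : ℝ) ≤ N / d := by
      apply div_le_div_of_nonneg_left hN0 hd0
      push_cast
      linarith
    have h4 : 0 ≤ N / d := by positivity
    have h5 : Real.log ((2 * d : ℕ) : ℝ) ^ 2 + N / ((2 * d : ℕ) : ℝ) ≤
        4 * (Real.log d ^ 2 + N / d) := by
      have : (2 * Real.log d) ^ 2 = 4 * Real.log d ^ 2 := by ring
      linarith
    have h6 := mul_le_mul_of_nonneg_left h5 (by positivity : 0 ≤ s / 4)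
    have h7 : s / 4 * (4 * (Real.log d ^ 2 + N / d)) = s * (Real.log d ^ 2 + N / d) := by ring
    rw [h7] at h6
    exact h6

theorem stmt_NRMV (hLABQ : Stmt_LABQ.{u}) (hESX : MP_db9399_lh.Stmt_ESX.{u})
    (hCORE : Stmt_CORE2.{u}) (hNDEC : MP_db9399_ot.Stmt_NDEC.{u})
    (hUPAR : MP_db9399_ot.Stmt_UPAR.{u}) (hLEFT : MP_db9399_ot.Stmt_LEFT.{u})
    (hP0ALL : Stmt_P0ALL2.{u}) (hPEALL : Stmt_PEALL2.{u}) (hASM : Stmt_ASM2.{u}) :
    Stmt_NRMV.{u} := by
  intro g gh η κ n fi Km hg hg1 hgh hgh1 hη hη1 hκ hκ1 hn hfi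
  have hn1 : (1 : ℝ) ≤ n := by exact_mod_cast hn
  -- constants
  obtain ⟨gd, l1, hgd, hgdg, hR⟩ := hCORE gh n hgh hgh1
  obtain ⟨l3, hl3⟩ := exists_nat_ge (6 / κ)
  obtain ⟨l, hl⟩ : ∃ l : ℕ, l = l1 + l3 + 20 := ⟨_, rfl⟩
  obtain ⟨δC, cM, hδC, hcM, hcM1, hR'⟩ := hR l (by omega)
  have hl20 : 20 ≤ l := by omega
  have hlr : 6 / κ ≤ 2 * (l : ℝ) + 1 := by
    have : (l3 : ℝ) ≤ l := by exact_mod_cast (by omega : l3 ≤ l)
    have h0 : (0 : ℝ) ≤ l := Nat.cast_nonneg _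
    linarith
  obtain ⟨cE, hcE, hcE1, hS⟩ := hESX gh l hgh (by omega)
  obtain ⟨K0, δe0, hδe0, hK0⟩ := hPEALL g gh gd δC cM cE n l hg hgh hgd (hgdg.trans hgh1) hδC
    hcM hcM1 hcE (by omega)
  obtain ⟨δe, hδe'⟩ : ∃ δe : ℝ, δe = min δe0 η := ⟨_, rfl⟩
  have hδe : 0 < δe := by rw [hδe']; exact lt_min hδe0 hη
  have hδe1 : δe ≤ δe0 := by rw [hδe']; exact min_le_left _ _
  have hδe2 : δe ≤ η := by rw [hδe']; exact min_le_right _ _
  obtain ⟨K1, hK1⟩ : ∃ K1 : ℕ, K1 = K0 + 4 + Km := ⟨_, rfl⟩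
  obtain ⟨m0, hm0⟩ := hK0 K1 (by omega)
  obtain ⟨ν, hν⟩ : ∃ ν : ℕ, ν = 3 * (K1 + 1) ^ 2 := ⟨_, rfl⟩
  obtain ⟨S0, hS0⟩ := exists_nat_ge ((2 * ((K1 : ℝ) + 1) ^ 2 + 1) * (2 / δe))
  obtain ⟨S, hSS⟩ : ∃ S : ℕ, S = ν + S0 + 24 * (2 * (K1 + 1) ^ 2 + 1) := ⟨_, rfl⟩
  have hS1 : 2 * ((K1 : ℝ) + 1) ^ 2 + 1 ≤ δe / 2 * (S + 1) := by
    have h1 : (S0 : ℝ) ≤ S := by exact_mod_cast (by omega : S0 ≤ S)
    have h2 : (2 * ((K1 : ℝ) + 1) ^ 2 + 1) * (2 / δe) ≤ S := hS0.trans h1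
    have h3 : δe / 2 * ((2 * ((K1 : ℝ) + 1) ^ 2 + 1) * (2 / δe)) ≤ δe / 2 * S :=
      mul_le_mul_of_nonneg_left h2 (by positivity)
    have h4 : δe / 2 * ((2 * ((K1 : ℝ) + 1) ^ 2 + 1) * (2 / δe)) = 2 * ((K1 : ℝ) + 1) ^ 2 + 1 := by
      field_simp
    linarith
  have hS2 : 24 * (2 * ((K1 : ℝ) + 1) ^ 2 + 1) ≤ S + 1 := by
    have h1 : 24 * (2 * (K1 + 1) ^ 2 + 1) ≤ S + 1 := by omega
    exact_mod_cast h1
  obtain ⟨δR, hδR, hR''⟩ := hR' S
  obtain ⟨δ, hδ⟩ : ∃ δ : ℝ, δ = min δR (1 / 10) := ⟨_, rfl⟩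
  have hδ0 : 0 < δ := by
    rw [hδ]; exact lt_min hδR (by norm_num)
  have hδd1 : δ ≤ δR := by rw [hδ]; exact min_le_left _ _
  have hδt : δ ≤ 1 / 10 := by rw [hδ]; exact min_le_right _ _
  obtain ⟨q, hq⟩ := exists_nat_ge (10000 * ((n : ℝ) + 1) * (2 * (l : ℝ) + 1) / δ)
  obtain ⟨r, hr⟩ : ∃ r : ℕ, r = q + 20 * (2 * l + 1) + n := ⟨_, rfl⟩
  obtain ⟨K, hK⟩ : ∃ K : ℕ, K = q := ⟨_, rfl⟩
  obtain ⟨m, hm⟩ : ∃ m : ℕ, m = m0 + q + 100 * (n + 1) * (K1 + 1) ^ 2 * ((2 * l + 1) * (S + 1)) +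
    1000 * (n + 1) * (r + 1) + 4 := ⟨_, rfl⟩
  have hqd : 10000 * ((n : ℝ) + 1) * (2 * (l : ℝ) + 1) ≤ δ * q := by
    rw [div_le_iff₀ hδ0] at hq
    linarith
  have hqm : 10000 * ((n : ℝ) + 1) * (2 * (l : ℝ) + 1) ≤ δ * (2 * m + 1) := by
    refine hqd.trans (mul_le_mul_of_nonneg_left ?_ hδ0.le)
    exact_mod_cast (by omega : q ≤ 2 * m + 1)
  have hqr : 10000 * ((n : ℝ) + 1) * (2 * (l : ℝ) + 1) ≤ δ * (r + 1) := by
    refine hqd.trans (mul_le_mul_of_nonneg_left ?_ hδ0.le)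
    exact_mod_cast (by omega : q ≤ r + 1)
  have hqK : 10000 * ((n : ℝ) + 1) * (2 * (l : ℝ) + 1) ≤ δ * (K + 1) := by
    refine hqd.trans (mul_le_mul_of_nonneg_left ?_ hδ0.le)
    exact_mod_cast (by omega : q ≤ K + 1)
  have hm1 : 1 ≤ m := by omega
  -- small constants
  obtain ⟨s1, c1, x1, n1, hs1, hc1, hx1, H1⟩ := hR'' m r K K1 hm1
  obtain ⟨s3, c3, x3, n3, hs3, hc3, hx3, H3⟩ := hS m r K K1 S hm1
  obtain ⟨s4, x4, n4, hs4, hx4, H4⟩ := hNDEC g gh n l m r K K1 S ν hg hgh (by omega) (by omega)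
    (by omega)
  obtain ⟨s6, x6, δ3, n6, hs6, hx6, hδ3, H6⟩ := hP0ALL g gh gd δ n l m r K K1 S ν hg hgh hgd hδ0
    hδt (by omega) (by omega) hqm hqr hqK
  obtain ⟨s7, x7, δ4, n7, hs7, hx7, hδ4, H7⟩ := hm0 m r K S (by omega)
  obtain ⟨s8, x8, n8, hs8, hx8, H8⟩ := hUPAR n l m r K K1 S (min δ3 δ4) (lt_min hδ3 hδ4) hl20
    (by omega) (by omega) (by omega) (by omega) (by omega)
  obtain ⟨s9, x9, n9, hs9, hx9, H9⟩ := hLEFT n l m r K K1 S ν (by omega) (by omega) (by omega)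
  obtain ⟨B, hB⟩ : ∃ B : ℝ, B = 100 * ((n : ℝ) + 1) * ((K1 : ℝ) + 1) ^ 2 *
    ((2 * l + 1) * (S + 1)) := ⟨_, rfl⟩
  have hB0 : 0 < B := by rw [hB]; positivity
  obtain ⟨cc, hcc⟩ : ∃ cc : ℝ, cc = min (min c1 c3) 1 := ⟨_, rfl⟩
  obtain ⟨x, hx⟩ : ∃ x : ℝ, x = min (min (min x1 (1 / B)) (min x3 x4)) (min (min η x6)
    (min (min x7 x8) (min x9 (1 / 2)))) := ⟨_, rfl⟩
  have hcc0 : 0 < cc := by
    rw [hcc]
    exact lt_min (lt_min hc1 hc3) one_pos
  have hx0 : 0 < x := by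
    rw [hx]
    exact lt_min (lt_min (lt_min hx1 (by positivity)) (lt_min hx3 hx4)) (lt_min (lt_min hη hx6)
      (lt_min (lt_min hx7 hx8) (lt_min hx9 (by norm_num))))
  have hcle : cc ≤ c1 ∧ cc ≤ c3 ∧ cc ≤ 1 := by
    rw [hcc]
    simp only [min_le_iff, le_refl, true_or, or_true, and_true]
  have hxle : x ≤ x1 ∧ x ≤ 1 / B ∧ x ≤ x3 ∧ x ≤ x4 ∧ x ≤ η ∧ x ≤ x6 ∧ x ≤ x7 ∧ x ≤ x8 ∧
      x ≤ x9 ∧ x ≤ 1 / 2 := by
    rw [hx]
    simp only [min_le_iff, le_refl, true_or, or_true, and_true]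
  clear hcc hx
  obtain ⟨b1, b3, b4⟩ := hcle
  obtain ⟨y1, y2, y3, y4, y5, y6, y7, y8, y9, y10⟩ := hxle
  have hxB : 100 * ((n : ℝ) + 1) * ((K1 : ℝ) + 1) ^ 2 * ((2 * l + 1) * (S + 1)) * x ≤ 1 := by
    rw [← hB]
    have := mul_le_mul_of_nonneg_left y2 hB0.le
    rw [mul_one_div, div_self hB0.ne'] at this
    exact this
  obtain ⟨n10, H10⟩ := numbers (κ := κ) (δe := δe) (f := f0 l S ν) (q := fq l S ν) (ε := x)
    (n := n) (l := l)
    (m := m) (r := r) (S := S) (ν := ν) (K1 := K1) hn hκ hδe hlr (by omega) hν rfl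
    rfl (by omega) hS1 hS2 (by omega) hx0.le hxB
  refine ⟨l, m, r, K, K1, S, x, by omega, hl20, hm1, hx0, ?_⟩
  intro X _ _ F σX sX hσX hsX
  obtain ⟨s, hs⟩ : ∃ s : ℝ, s = min (min (min s1 σX) (min s3 s4)) (min s6
    (min (min s7 s8) s9)) := ⟨_, rfl⟩
  have hs0 : 0 < s := by
    rw [hs]
    exact lt_min (lt_min (lt_min hs1 hσX) (lt_min hs3 hs4)) (lt_min hs6
      (lt_min (lt_min hs7 hs8) hs9))
  have hsle : s ≤ s1 ∧ s ≤ σX ∧ s ≤ s3 ∧ s ≤ s4 ∧ s ≤ s6 ∧ s ≤ s7 ∧ s ≤ s8 ∧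
      s ≤ s9 := by
    rw [hs]
    simp only [min_le_iff, le_refl, true_or, or_true, and_true]
  clear hs
  obtain ⟨a1, a2, a3, a4, a6, a7, a8, a9⟩ := hsle
  obtain ⟨n11, H11⟩ := hLABQ (Lh l m r K K1 S × X) ((n + 2) + F) s cc
    (1 / (4 * ((n : ℝ) + 1))) (sX / 4) hs0 hcc0 (by positivity) (by positivity)
  obtain ⟨N0, hN0⟩ : ∃ N0 : ℕ, N0 = n1 + n3 + n4 + n6 + n7 + n8 + n9 + n10 + n11 +
    2 * ((2 * m + 1) * (r + 1)) + 2 := ⟨_, rfl⟩
  refine ⟨2 * (n + 1) * N0, ?_⟩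
  intro V _ G H Gc d D k UH c0 EH tu hd hk hBG hBH hCls hH
  have hx1' : x ≤ 1 := y10.trans (by norm_num)
  have hDd := hCls.Dd hn hx1'
  have hDdr : (D : ℝ) ≤ d := by exact_mod_cast hDd
  have hd2D := hCls.d2D y10
  have hN0D : N0 ≤ D := by
    have h1 : ((2 * (n + 1) * N0 : ℕ) : ℝ) ≤ d := by exact_mod_cast hd
    push_cast at h1
    have h2 : 2 * ((n : ℝ) + 1) * N0 ≤ 2 * ((n : ℝ) + 1) * D := h1.trans hd2D
    have h3 := le_of_mul_le_mul_left h2 (by positivity)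
    exact_mod_cast h3
  have hGc : ∀ i v, (nb (Gc i) v).card ≤ 2 * d := by
    intro i v
    have h1 := (abs_le.mp (hCls.reg i v)).2
    have h2 : x * (D : ℝ) ≤ 1 * D := mul_le_mul_of_nonneg_right hx1' (Nat.cast_nonneg _)
    have h3 : ((nb (Gc i) v).card : ℝ) ≤ 2 * d := by linarith only [h1, h2, hDdr]
    exact_mod_cast h3
  have hρD : 1 / (4 * ((n : ℝ) + 1)) * ((2 * d : ℕ) : ℝ) ≤ D := by
    push_cast
    rw [div_mul_eq_mul_div, div_le_iff₀ (by positivity)]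
    linarith only [hd2D]
  have hρd : 1 / (4 * ((n : ℝ) + 1)) * ((2 * d : ℕ) : ℝ) ≤ d := hρD.trans hDdr
  have hNd : N0 ≤ d := hN0D.trans hDd
  obtain ⟨w0, wq, wc, W1, w_1, w_2, w_3, w_4, w_5, w_6, w_7, w_8, w_9, w_10, w_11, w_12, w_13,
    w_14, w_15, w_16⟩ := H10 d D (by omega) hCls.le_D hCls.D_le
  obtain ⟨w, hw⟩ : ∃ w : ℕ, w = (w0 + n * wc) + 3 * wq := ⟨_, rfl⟩
  -- colours
  have hcardI : Fintype.card (Ix m w) = (2 * m + 1) * (m * w) := by
    rw [Fintype.card_prod, Fintype.card_prod, ZMod.card, Fintype.card_fin, Fintype.card_fin]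
  obtain ⟨e, e1, he, he1, hee, -⟩ := exists_colours (k := k) (α := Ix m w) (β := Fin W1) ∅
    (by simp) (by rw [hcardI, Fintype.card_fin, hw, w_11]; exact hk)
  have hwr : (w : ℝ) = (w0 + n * wc) + 3 * wq := by rw [hw]; push_cast; ring
  have hNN0 : (0 : ℝ) ≤ (2 * (m : ℝ) + 1) * m := by positivity
  have hmw_le : (2 * (m : ℝ) + 1) * m * w ≤ d := by
    rw [hwr]
    linarith
  obtain ⟨τ, ρ, ι, pal, hτq, hτρ, hρ, hpal, hι1, hι2, hι3, hιρ⟩ :=
    exists_types_iota m w0 wq wc n r fi hfi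
  have hι4 : ∀ j, (univ.filter (fun s => ι s = none ∧ τ s = some j)).card = wq := by
    intro j
    refine Eq.trans ?_ (hτq j)
    congr 1
    ext s
    simp only [mem_filter, mem_univ, true_and]
    constructor
    · exact fun h => h.2
    · intro h
      refine ⟨?_, h⟩
      by_contra h2
      rw [hι1 s h2] at h
      exact absurd h (by simp)
  subst hw
  obtain ⟨sy, hsy⟩ := equi W1 (Fin (K1 + 1) × Fin (K1 + 1))
  have htp := fun u : V => exists_tp e he τ (c0 u) (tu u)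
  choose tp htp using htp
  have hρ' : ∀ i, (3 * (2 * (m : ℝ) + 1)) * (m * (univ.filter (fun s => ρ s = i)).card) ≤ d := by
    intro i
    have h1 := mul_le_mul_of_nonneg_left (hρ i) hNN0
    push_cast at h1
    linarith
  have hτt : ∀ t, ((m : ℝ) - 1) * (univ.filter (fun s => ι s = none ∧ τ s = t)).card ≤
        (1 - 1 / (2 * m + 1)) * (ft l S ν t * D / (2 * m + 1)) := by
    intro t
    unfold ft
    cases t with
    | none =>
      rw [if_pos rfl, hι2]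
      exact w_1
    | some j =>
      rw [if_neg (by simp), hι4]
      exact w_2
  have hτt' : ∀ t, (1 - 2 / (2 * m + 1)) * (ft l S ν t * D / (2 * m + 1)) ≤
        ((m : ℝ) - 1) * (univ.filter (fun s => ι s = none ∧ τ s = t)).card := by
    intro t
    unfold ft
    cases t with
    | none =>
      rw [if_pos rfl, hι2]
      exact w_4
    | some j =>
      rw [if_neg (by simp), hι4]
      exact w_5
  have hsy' : ∀ z, (D : ℝ) / ((2 * l + 1) * (S + 1)) + 8 * (d : ℝ) / (2 * m + 1) ≤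
        (univ.filter (fun y => sy y = z)).card := by
    intro z
    have h1 := (hsy z).1
    rw [Fintype.card_prod, Fintype.card_fin] at h1
    push_cast at h1
    have h2 := w_14.trans h1
    have h3 : 0 < ((K1 : ℝ) + 1) ^ 2 := by positivity
    have h4 : ((K1 : ℝ) + 1) ^ 2 * ((D : ℝ) / ((2 * l + 1) * (S + 1)) + 8 * (d : ℝ) / (2 * m + 1) + 1)
      ≤ ((K1 : ℝ) + 1) ^ 2 * (((univ.filter (fun y => sy y = z)).card : ℝ) + 1) := by
      rw [sq] at h2 ⊢
      exact h2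
    have h5 := le_of_mul_le_mul_left h4 h3
    linarith
  -- the palettes
  have hpal' : ∀ i, ∃ Y' ⊆ univ.filter (fun y : Fin m × Fin ((w0 + n * wc) + 3 * wq) =>
      pal y = i ∧ τ y.2 = none),
      (1 - κ) * d ≤ (((2 * m + 1) * (r + 1) : ℕ) : ℝ) * (Y'.card : ℝ) ∧
      2 * ((2 * m + 1) * (r + 1) * Y'.card) ≤ 3 * d := by
    intro i
    apply exists_trunc
    · positivity
    · have h1 := mul_le_mul_of_nonneg_left (hpal i) (by positivity : (0 : ℝ) ≤ 2 * m + 1)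
      push_cast at h1 ⊢
      linarith
    · have : 0 ≤ 1 - κ := by linarith
      positivity
    · have h1 : (0 : ℝ) ≤ d := Nat.cast_nonneg _
      nlinarith only [h1, hκ]
    · omega
  choose Y hYs hY1 hY2 using hpal'
  obtain ⟨ow, how⟩ : ∃ ow : Fin k → Option (ZMod (2 * m + 1) × Fin (r + 1)),
      ∀ b a i, ow b = some (a, i) ↔ ∃ y ∈ Y i, b = e (a, y) := by
    refine ⟨fun b => if h : ∃ x : Ix m ((w0 + n * wc) + 3 * wq), e x = b ∧ x.2 ∈ Y (pal x.2)
      then some (h.choose.1, pal h.choose.2) else none, fun b a i => ?_⟩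
    beta_reduce
    constructor
    · intro hb
      by_cases h : ∃ x : Ix m ((w0 + n * wc) + 3 * wq), e x = b ∧ x.2 ∈ Y (pal x.2)
      · rw [dif_pos h] at hb
        have h1 := Option.some.inj hb
        obtain ⟨h2, h3⟩ := h.choose_spec
        obtain ⟨h4, h5⟩ := Prod.mk.inj h1
        refine ⟨h.choose.2, ?_, ?_⟩
        · rw [← h5]
          exact h3
        · rw [← h4]
          exact h2.symm
      · rw [dif_neg h] at hb
        exact absurd hb (by simp)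
    · rintro ⟨y, hy, rfl⟩
      have hp : pal y = i := (mem_filter.mp (hYs i hy)).2.1
      have h : ∃ x : Ix m ((w0 + n * wc) + 3 * wq), e x = e (a, y) ∧ x.2 ∈ Y (pal x.2) :=
        ⟨(a, y), rfl, by rw [hp]; exact hy⟩
      rw [dif_pos h]
      have h1 := he h.choose_spec.1
      rw [h1]
      simp only [hp]
  have hcow : ∀ q, (univ.filter (fun b => ow b = some q)).card = (Y q.2).card := by
    intro q
    obtain ⟨a, i⟩ := q
    have h1 : univ.filter (fun b => ow b = some (a, i)) = (Y i).image (fun y => e (a, y)) := by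
      ext b
      simp only [mem_filter, mem_univ, true_and, mem_image]
      rw [how]
      constructor
      · rintro ⟨y, hy, h⟩
        exact ⟨y, hy, h.symm⟩
      · rintro ⟨y, hy, h⟩
        exact ⟨y, hy, h.symm⟩
    rw [h1]
    refine card_image_of_injective _ (fun y y' h => ?_)
    exact (Prod.ext_iff.mp (he h)).2
  -- the classes of the colours
  obtain ⟨cs, hcs⟩ : ∃ cs : Fin k → Option (Fin n), ∀ x, cs (e x) = ι x.2.2 := by
    refine ⟨fun b => if h : ∃ x, e x = b then ι h.choose.2.2 else none, fun x => ?_⟩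
    have h : ∃ x', e x' = e x := ⟨x, rfl⟩
    beta_reduce
    rw [dif_pos h, he h.choose_spec]
  obtain ⟨sv, hsv⟩ : ∃ sv : Fin k → Fin (K1 + 1) × Fin (K1 + 1), ∀ y, sv (e1 y) = sy y := by
    refine ⟨fun b => if h : ∃ y, e1 y = b then sy h.choose else (0, 0), fun y => ?_⟩
    have h : ∃ y', e1 y' = e1 y := ⟨y, rfl⟩
    beta_reduce
    rw [dif_pos h, he1 h.choose_spec]
  have hmemE : ∀ x, e x ∈ univ.image e ∪ univ.image e1 := fun x =>
    mem_union_left _ (mem_image_of_mem _ (mem_univ _))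
  have hnE1 : ∀ x, e x ∉ univ.image e1 := by
    intro x hb
    rw [mem_image] at hb
    obtain ⟨y, -, hy⟩ := hb
    exact hee x y hy.symm
  refine ⟨univ.image e ∪ univ.image e1, univ.image e1, cs, ow, sv, ?_, ?_⟩
  · constructor
    · exact hCls.dD.trans (mul_le_mul_of_nonneg_right y5 (Nat.cast_nonneg _))
    · rw [card_union_of_disjoint, card_image_of_injective _ he, card_image_of_injective _ he1,
        card_univ, card_univ, hcardI, Fintype.card_fin, w_11]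
      rw [disjoint_left]
      intro b hb hb'
      rw [mem_image] at hb hb'
      obtain ⟨x, -, hx⟩ := hb
      obtain ⟨y, -, hy⟩ := hb'
      exact hee x y (hx.trans hy.symm)
    · exact subset_union_right
    · rw [card_image_of_injective _ he1, card_univ, Fintype.card_fin]
      exact w_13.trans (mul_le_mul_of_nonneg_right hδe2 (Nat.cast_nonneg _))
    · intro i
      have h1 : ((univ.filter (fun x : Ix m ((w0 + n * wc) + 3 * wq) =>
          ι x.2.2 = some i)).image e).card ≤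
          ((univ.image e ∪ univ.image e1).filter (fun b => b ∉ univ.image e1 ∧
            cs b = some i)).card := by
        refine card_le_card ?_
        intro b hb
        rw [mem_image] at hb
        obtain ⟨x, hx, hx2⟩ := hb
        rw [mem_filter] at hx
        rw [mem_filter, ← hx2]
        refine ⟨hmemE x, hnE1 x, ?_⟩
        rw [hcs]
        exact hx.2
      rw [card_image_of_injective _ he, card_class, hι3] at h1
      have h2 : (((2 * m + 1) * (m * wc) : ℕ) : ℝ) ≤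
          (((univ.image e ∪ univ.image e1).filter (fun b => b ∉ univ.image e1 ∧
            cs b = some i)).card : ℝ) := by exact_mod_cast h1
      push_cast at h2
      have h3 : (1 - η) * (D : ℝ) ≤ (1 + 1 / (2 * (2 * m + 1))) * D := by
        apply mul_le_mul_of_nonneg_right _ (Nat.cast_nonneg _)
        have : 0 ≤ 1 / (2 * (2 * (m : ℝ) + 1)) := by positivity
        linarith only [this, hη]
      have h4 : (2 * (m : ℝ) + 1) * m * wc = (2 * (m : ℝ) + 1) * (m * wc) := by ring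
      linarith only [h2, h3, w_10, h4]
    · intro b q hb
      obtain ⟨a, i⟩ := q
      rw [how] at hb
      obtain ⟨y, -, rfl⟩ := hb
      exact ⟨hmemE _, hnE1 _⟩
    · intro q
      have h1 := hY1 q.2
      rw [hcow q]
      push_cast at h1
      exact h1
    · intro q
      rw [hcow q]
      exact hY2 q.2
  intro Qs J _ Φ ct tt hQs hTQ
  obtain ⟨lab, hlab, hΦ⟩ := H11 (V := V)
    (Fin.append (Fin.cons G (Fin.cons H Gc) : Fin (n + 2) → SimpleGraph V) Qs) (2 * d)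
    (Fin.append (Fin.cons d (Fin.cons D (fun _ => D)) : Fin (n + 2) → ℕ) (fun _ => d)) J Φ ct tt
    (by omega)
    (by
      intro i
      refine Fin.addCases (fun j => ?_) (fun j => ?_) i
      · rw [Fin.append_left]
        refine Fin.cases ?_ (Fin.cases ?_ ?_) j
        · intro v
          have := hBG.deg v
          exact (by omega : (nb G v).card ≤ 2 * d)
        · intro v
          have := hBH.deg v
          exact (by omega : (nb H v).card ≤ 2 * d)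
        · intro j v
          exact hGc j v
      · rw [Fin.append_right]
        exact hQs j)
    (by
      intro i
      refine Fin.addCases (fun j => ?_) (fun j => ?_) i
      · rw [Fin.append_left]
        refine Fin.cases ?_ (Fin.cases ?_ ?_) j
        · exact ⟨hρd, (by omega : d ≤ 2 * d)⟩
        · exact ⟨hρD, (by omega : D ≤ 2 * d)⟩
        · intro j
          exact ⟨hρD, (by omega : D ≤ 2 * d)⟩
      · rw [Fin.append_right]
        exact ⟨hρd, by omega⟩)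
    (tq_two hsX (by omega) hTQ)
  have labG2 : LabP G d s cc lab := by
    have h1 := hlab (Fin.castAdd F 0)
    rw [Fin.append_left, Fin.append_left] at h1
    exact h1
  have labG : LabP G d s cc (fun v => (lab v).1) := labP_fst labG2
  have labH : LabP H D s cc (fun v => (lab v).1) := by
    have h1 := hlab (Fin.castAdd F 1)
    rw [Fin.append_left, Fin.append_left] at h1
    exact labP_fst h1
  have labc : ∀ i, LabP (Gc i) D s cc (fun v => (lab v).1) := by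
    intro i
    have h1 := hlab (Fin.castAdd F (Fin.succ (Fin.succ i)))
    rw [Fin.append_left, Fin.append_left] at h1
    exact labP_fst h1
  refine ⟨lab, labG2.mono a2 b4, ?_, hΦ, ?_⟩
  · intro i
    have h1 := hlab (Fin.natAdd (n + 2) i)
    rw [Fin.append_right, Fin.append_right] at h1
    exact h1.mono a2 b4
  intro c hcU hcP hcA
  obtain ⟨lb, hlb⟩ : ∃ lb : V → Lh l m r K K1 S, lb = fun v => (lab v).1 := ⟨_, rfl⟩
  rw [← hlb] at labG labH labc ⊢
  have hcP' : ∀ v, v ∉ UH → ow (c v) = some (ce (lb v), su (lb v)) := by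
    rw [hlb]
    exact hcP
  clear hcP
  have hSit : Sit g gh x s cc G H G Gc d D lb := ⟨hBG, hBH, hCls, labG, labH, labc, labG⟩
  have hBLH : BL gh x H D := hSit.blH hn hx1' hgh.le
  -- the blocks
  obtain ⟨L1, L2⟩ := H1 H d D lb (by omega) hd2D hDd (hBH.mono y1) (labH.mono a1 b1)
  have L3 := H3 H D lb (by omega) (MP_db9399_ot.BL.mono' hBLH y3) (labH.mono a3 b3)
  have L1' : OneRound2 gd δ H D d lb := oneRound2_mono L1 hδd1
  obtain ⟨Nd, L4⟩ := H4 G H G Gc d D ((w0 + n * wc) + 3 * wq) cc UH lb τ ι (by omega)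
    (hSit.mono y4 a4 le_rfl) hH.two hι1 hτt (fun i => by rw [hι3]; exact w_3)
  have L5 : VCol G UH c0 lb e τ pal c := by
    refine ⟨hcU, ?_, hcA⟩
    intro v hv
    obtain ⟨y, hy, hy2⟩ := (how _ _ _).mp (hcP' v hv)
    have hy3 := (mem_filter.mp (hYs _ hy)).2
    exact ⟨y, hy2, hy3.1, hy3.2⟩
  obtain ⟨wv, L6⟩ := H8 G H G Gc d D k ((w0 + n * wc) + 3 * wq) w0 wq wc W1 g gh cc UH c0 EH tu
    lb e τ ι e1 sy tp pal c
    (by omega) (hSit.mono y8 a8 le_rfl) hH he he1 hee L5 hι1 hι2 hτq hι3 w_7 w_8 w_9 w_10 w_12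
  obtain ⟨Mx, O, L8, L8m⟩ := H6 G H G Gc d D k ((w0 + n * wc) + 3 * wq) W1 cc UH c0 EH tu lb e τ
    ι ρ e1 sy tp pal c wv Nd (by omega) (hSit.mono y6 a6 le_rfl) L1' hH he L5
    (uPar_mono L6 (min_le_left _ _)) L4 hmw_le hτρ hρ'
  obtain ⟨Kk, L7⟩ := H9 G H G Gc d D ((w0 + n * wc) + 3 * wq) W1 g gh cc UH lb τ ι sy Nd Mx
    (by omega) (hSit.mono y9 a9 le_rfl) L4 (fun x v v' h => (L8.le x v v' h).1) hι1 hτt'
    (fun i => by rw [hι3]; exact w_6) hsy'
  obtain ⟨M1, O1, L9, L9m⟩ := H7 G H G Gc d D k ((w0 + n * wc) + 3 * wq) W1 ν cc UH c0 EH tu lb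
    e τ ι ρ e1 sy tp c wv Nd Mx O Kk (by omega) (hSit.mono y7 a7 le_rfl) L2 L3 hH he1
    (uPar_mono L6 (min_le_right _ _)) L4 L8 L8m L7 hmw_le
    (w_13.trans (mul_le_mul_of_nonneg_right hδe1 (Nat.cast_nonneg _)))
  obtain ⟨t, L10, L11, L12, L13⟩ := hASM gd x (min δ3 δ4) G H Gc d D k ((w0 + n * wc) + 3 * wq)
    W1 ν UH c0 EH tu lb e τ ι ρ e1 sy tp pal c wv Nd Mx O Kk M1 O1 (by omega) hBG.deg hCls w_11
    hH he he1 hee (fun u _ x hx => htp u x hx) hτρ hι1 L5 L6 L4 L8 L8m L7 L9 L9m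
  refine ⟨t, L10, L11, ?_, ?_, ?_, ?_⟩
  · intro v v' h1 h2
    rcases L12 v v' h1 h2 with ⟨x, hx, -⟩ | ⟨y, hy, -⟩
    · rw [hx]
      exact mem_union_left _ (mem_image_of_mem _ (mem_univ _))
    · rw [hy]
      exact mem_union_right _ (mem_image_of_mem _ (mem_univ _))
  · intro v v' h1 h2 h3
    rcases L12 v v' h1 h2 with ⟨x, hx, hx2⟩ | ⟨y, hy, -⟩
    · rcases hx2 with h4 | ⟨i, hi, h4⟩
      · exact Or.inl h4
      · right
        exact ⟨i, by rw [hx, hcs]; exact hi, h4⟩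
    · exact absurd (by rw [hy]; exact mem_image_of_mem _ (mem_univ _)) h3
  · intro v v' h1 h2 h3
    rcases L12 v v' h1 h2 with ⟨x, hx, -⟩ | ⟨y, hy, h4⟩
    · rw [hx] at h3
      exact absurd h3 (hnE1 x)
    · rw [hy, hsv]
      exact h4
  · intro v b hb h1 h2
    have hb' : (∃ x, e x = b) ∨ (∃ y, e1 y = b) := by
      rw [mem_union, mem_image, mem_image] at hb
      rcases hb with ⟨x, -, hx⟩ | ⟨y, -, hy⟩
      · exact Or.inl ⟨x, hx⟩
      · exact Or.inr ⟨y, hy⟩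
    obtain ⟨h3, h4⟩ := L13 v b hb' h1 h2
    constructor
    · intro hv
      obtain ⟨x, rfl, hx⟩ := h3 hv
      refine ⟨hnE1 x, ?_⟩
      rw [hcs]
      by_contra h5
      rw [hι1 _ h5] at hx
      exact absurd hx (by simp)
    · intro hv hm
      obtain ⟨x, rfl, hx⟩ := h4 hv hm
      refine ⟨hnE1 x, ?_⟩
      intro i hi
      rw [hcs] at hi
      have h5 : τ x.2.2 = none := hι1 _ (by rw [hi]; simp)
      rw [h5] at hx
      rcases hx with h6 | h6
      · exact absurd h6 (by simp)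
      · rw [← hιρ _ _ hi]
        exact h6

end Pool.Agent.Work.MP_db9399_sw.helper84
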