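import Pool.Agent.Work.MP_db9399_sw.Ov
import Pool.Agent.Work.MP_db9399_ot_helper99.NRM

/-! PHASE 2 (short spots), block NRMV, part 1: types of the rounds, truncated palettes, labels with
a second component (helper84). -/

set_option autoImplicit false

namespace Pool.Agent.Work.MP_db9399_sw.helper84

open Finset Classical
open Pool.Agent.Work.MP_db9399_all (nb)
open Pool.Agent.Work.MP_db9399_px (LWalk hit ee)
open Pool.Agent.Work.MP_db9399_bg (den cl LabP Good PN IsPat en enP REnv Spr Lbl bx c3f c3 HPre Ix
  mem_cl mem_nb)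
open Pool.Agent.Work.MP_db9399_lh.helper99 (equi card_filter_sum card_filter_equiv)
open Pool.Agent.Work.MP_db9399_sw

universe u

/-- types, classes, parts of the missed vertices and palettes of the rounds -/
theorem exists_types_iota (m w0 wq wc n r : ℕ) (fi : Fin n → ZMod 3)
    (hfi : ∀ j, 3 * (univ.filter (fun i => fi i = j)).card = n) :
    ∃ (τ : Fin ((w0 + n * wc) + 3 * wq) → Option (ZMod 3))
      (ρ : Fin ((w0 + n * wc) + 3 * wq) → ZMod 3)
      (ι : Fin ((w0 + n * wc) + 3 * wq) → Option (Fin n))
      (pal : Fin m × Fin ((w0 + n * wc) + 3 * wq) → Fin (r + 1)),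
      (∀ j, (univ.filter (fun s => τ s = some j)).card = wq) ∧
      (∀ s, τ s ≠ some (ρ s)) ∧
      (∀ i, 3 * ((univ.filter (fun s => ρ s = i)).card : ℝ) ≤ (w0 + n * wc) + 3 * wq + 3) ∧
      (∀ s, (m : ℝ) * (w0 + n * wc) ≤ (r + 1) *
        (((univ.filter (fun y : Fin m × Fin ((w0 + n * wc) + 3 * wq) =>
          pal y = s ∧ τ y.2 = none)).card : ℝ) + 1)) ∧
      (∀ s, ι s ≠ none → τ s = none) ∧
      (univ.filter (fun s => ι s = none ∧ τ s = none)).card = w0 ∧
      (∀ i, (univ.filter (fun s => ι s = some i)).card = wc) ∧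
      ∀ s i, ι s = some i → ρ s = fi i := by
  obtain ⟨Φ⟩ : Nonempty (Fin ((w0 + n * wc) + 3 * wq) ≃
      (Fin w0 ⊕ (Fin n × Fin wc)) ⊕ (ZMod 3 × Fin wq)) :=
    ⟨Fintype.equivOfCardEq (by
      rw [Fintype.card_fin, Fintype.card_sum, Fintype.card_sum, Fintype.card_fin,
        Fintype.card_prod, Fintype.card_prod, ZMod.card, Fintype.card_fin, Fintype.card_fin,
        Fintype.card_fin])⟩
  obtain ⟨f0, hf0⟩ := equi w0 (ZMod 3)
  obtain ⟨Ψ⟩ : Nonempty (Fin m × (Fin w0 ⊕ (Fin n × Fin wc)) ≃ Fin (m * (w0 + n * wc))) :=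
    ⟨Fintype.equivOfCardEq (by
      rw [Fintype.card_fin, Fintype.card_prod, Fintype.card_sum, Fintype.card_fin,
        Fintype.card_prod, Fintype.card_fin, Fintype.card_fin, Fintype.card_fin])⟩
  obtain ⟨fp, hfp⟩ := equi (m * (w0 + n * wc)) (Fin (r + 1))
  refine ⟨fun s => Sum.elim (fun _ => none) (fun p => some p.1) (Φ s),
    fun s => Sum.elim (Sum.elim f0 (fun q => fi q.1)) (fun p => p.1 + 1) (Φ s),
    fun s => Sum.elim (Sum.elim (fun _ => none) (fun q => some q.1)) (fun _ => none) (Φ s),
    fun y => Sum.elim (fun i => fp (Ψ (y.1, i))) (fun _ => 0) (Φ y.2),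
    ?_, ?_, ?_, ?_, ?_, ?_, ?_, ?_⟩
  · intro j
    beta_reduce
    rw [card_filter_equiv Φ (fun x => Sum.elim (fun _ => (none : Option (ZMod 3)))
      (fun p : ZMod 3 × Fin wq => some p.1) x = some j), card_filter_sum]
    have h1 : univ.filter (fun b : ZMod 3 × Fin wq => Sum.elim
        (fun _ : Fin w0 ⊕ (Fin n × Fin wc) => (none : Option (ZMod 3)))
          (fun p : ZMod 3 × Fin wq => some p.1) (Sum.inr b) = some j) = {j} ×ˢ univ := by
      ext ⟨a, b⟩
      simp [eq_comm]
    rw [h1, card_product, card_singleton, card_univ, Fintype.card_fin]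
    simp
  · intro s
    simp only
    rcases Φ s with (a | a) | b
    · simp
    · simp
    · simp only [Sum.elim_inr, ne_eq, Option.some.injEq]
      intro h
      have h2 : (1 : ZMod 3) = 0 := by
        have := congrArg (fun z => z - b.1) h
        simp only [sub_self, add_sub_cancel_left] at this
        exact this.symm
      exact absurd h2 (by decide)
  · intro i
    beta_reduce
    rw [card_filter_equiv Φ (fun x => Sum.elim (Sum.elim f0 (fun q : Fin n × Fin wc => fi q.1))
      (fun p : ZMod 3 × Fin wq => p.1 + 1) x = i), card_filter_sum, card_filter_sum]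
    have h1 : univ.filter (fun b : ZMod 3 × Fin wq => Sum.elim
        (Sum.elim f0 (fun q : Fin n × Fin wc => fi q.1))
        (fun p : ZMod 3 × Fin wq => p.1 + 1) (Sum.inr b) = i) = {i - 1} ×ˢ univ := by
      ext ⟨a, b⟩
      simp only [Sum.elim_inr, mem_filter, mem_univ, true_and, mem_product, mem_singleton,
        and_true]
      exact eq_sub_iff_add_eq.symm
    have h3 : univ.filter (fun b : Fin n × Fin wc => Sum.elim
        (Sum.elim f0 (fun q : Fin n × Fin wc => fi q.1))
        (fun p : ZMod 3 × Fin wq => p.1 + 1) (Sum.inl (Sum.inr b)) = i) =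
        (univ.filter (fun a => fi a = i)) ×ˢ univ := by
      ext ⟨a, b⟩
      simp
    rw [h1, h3, card_product, card_product, card_singleton, card_univ, card_univ,
      Fintype.card_fin, Fintype.card_fin]
    have h2 := (hf0 i).2
    simp only [Sum.elim_inl]
    rw [ZMod.card] at h2
    have h4 : (3 : ℝ) * ((univ.filter (fun a => fi a = i)).card : ℝ) = n := by
      exact_mod_cast hfi i
    push_cast at h2 ⊢
    have h5 : (3 : ℝ) * (((univ.filter (fun a => fi a = i)).card : ℝ) * wc) = n * wc := by
      rw [← mul_assoc, h4]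
    linarith
  · intro s
    have h1 := (hfp s).1
    rw [Fintype.card_fin] at h1
    push_cast at h1
    refine h1.trans (mul_le_mul_of_nonneg_left ?_ (by positivity))
    have h2 : (univ.filter (fun t => fp t = s)).card ≤
        (univ.filter (fun y : Fin m × Fin ((w0 + n * wc) + 3 * wq) =>
          Sum.elim (fun i => fp (Ψ (y.1, i))) (fun _ => 0) (Φ y.2) = s ∧
          Sum.elim (fun _ => (none : Option (ZMod 3))) (fun p : ZMod 3 × Fin wq => some p.1)
            (Φ y.2) = none)).card := by
      refine Finset.card_le_card_of_injOn (fun t => ((Ψ.symm t).1,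
        Φ.symm (Sum.inl (Ψ.symm t).2))) ?_ ?_
      · intro t ht
        simp only [Finset.coe_filter, Finset.mem_univ, true_and, Set.mem_ofPred_eq] at ht ⊢
        simp only [Equiv.apply_symm_apply, Sum.elim_inl, Prod.mk.eta, and_true]
        exact ht
      · intro t _ t' _ h
        simp only [Prod.mk.injEq, EmbeddingLike.apply_eq_iff_eq, Sum.inl.injEq] at h
        exact Ψ.symm.injective (Prod.ext h.1 h.2)
    have h3 : ((univ.filter (fun t => fp t = s)).card : ℝ) ≤
        ((univ.filter (fun y : Fin m × Fin ((w0 + n * wc) + 3 * wq) =>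
          Sum.elim (fun i => fp (Ψ (y.1, i))) (fun _ => 0) (Φ y.2) = s ∧
          Sum.elim (fun _ => (none : Option (ZMod 3))) (fun p : ZMod 3 × Fin wq => some p.1)
            (Φ y.2) = none)).card : ℝ) := by exact_mod_cast h2
    linarith
  · intro s
    simp only
    rcases Φ s with (a | a) | b <;> simp
  · have h1 : univ.filter (fun s => Sum.elim (Sum.elim (fun _ : Fin w0 => (none : Option (Fin n)))
        (fun q : Fin n × Fin wc => some q.1)) (fun _ : ZMod 3 × Fin wq => none) (Φ s) = none ∧
        Sum.elim (fun _ => (none : Option (ZMod 3))) (fun p : ZMod 3 × Fin wq => some p.1)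
          (Φ s) = none) =
        (univ : Finset (Fin w0)).map ⟨fun j => Φ.symm (Sum.inl (Sum.inl j)), by
          intro a b h
          simpa using h⟩ := by
      ext s
      simp only [mem_filter, mem_univ, true_and, mem_map, Function.Embedding.coeFn_mk]
      constructor
      · rintro ⟨h1, h2⟩
        rcases hx : Φ s with (a | a) | b
        · exact ⟨a, by rw [← hx, Equiv.symm_apply_apply]⟩
        · rw [hx] at h1
          simp at h1
        · rw [hx] at h2
          simp at h2
      · rintro ⟨a, rfl⟩
        simp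
    rw [h1, card_map, card_univ, Fintype.card_fin]
  · intro i
    have h1 : univ.filter (fun s => Sum.elim (Sum.elim (fun _ : Fin w0 => (none : Option (Fin n)))
        (fun q : Fin n × Fin wc => some q.1)) (fun _ : ZMod 3 × Fin wq => none) (Φ s) =
          some i) =
        (univ : Finset (Fin wc)).map ⟨fun j => Φ.symm (Sum.inl (Sum.inr (i, j))), by
          intro a b h
          simpa using h⟩ := by
      ext s
      simp only [mem_filter, mem_univ, true_and, mem_map, Function.Embedding.coeFn_mk]
      constructor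
      · intro h1
        rcases hx : Φ s with (a | a) | b
        · rw [hx] at h1
          simp at h1
        · rw [hx] at h1
          simp only [Sum.elim_inl, Sum.elim_inr, Option.some.injEq] at h1
          exact ⟨a.2, by rw [← h1, Prod.mk.eta, ← hx, Equiv.symm_apply_apply]⟩
        · rw [hx] at h1
          simp at h1
      · rintro ⟨a, rfl⟩
        simp
    rw [h1, card_map, card_univ, Fintype.card_fin]
  · intro s i h
    beta_reduce at h ⊢
    rcases hx : Φ s with (a | a) | b
    · rw [hx] at h
      simp at h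
    · rw [hx] at h
      simp only [Sum.elim_inl, Sum.elim_inr, Option.some.injEq] at h ⊢
      rw [h]
    · rw [hx] at h
      simp at h

section proj
variable {V : Type u} [Fintype V] {T X : Type} [Fintype T] [Fintype X] [Nonempty X]

theorem den_prod (P : Finset T) : den (P ×ˢ (univ : Finset X)) = den P := by
  unfold den
  rw [card_product, card_univ, Fintype.card_prod]
  push_cast
  have hX : (Fintype.card X : ℝ) ≠ 0 := by
    have := Fintype.card_pos (α := X)
    positivity
  exact mul_div_mul_right _ _ hX

theorem cl_prod (lab : V → T × X) (P : Finset T) :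
    cl (fun v => (lab v).1) P = cl lab (P ×ˢ (univ : Finset X)) := by
  ext v
  simp [mem_cl]

/-- the first component of the labels -/
theorem labP_fst {G : SimpleGraph V} {d : ℕ} {σ c1 : ℝ} {lab : V → T × X}
    (h : LabP G d σ c1 lab) : LabP G d σ c1 (fun v => (lab v).1) where
  deg v P := by
    have h1 := h.deg v (P ×ˢ (univ : Finset X))
    rw [den_prod, ← cl_prod] at h1
    exact h1
  sps v P := by
    have h1 := h.sps v (P ×ˢ (univ : Finset X))
    rw [den_prod, ← cl_prod] at h1
    exact h1
  cod P Q L w R S θ1 θ2 h1 h2 h3 h4 h5 h6 h7 h8 := by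
    have h9 := h.cod (P ×ˢ (univ : Finset X)) (Q ×ˢ (univ : Finset X)) L w R S θ1 θ2
      (by rw [card_product, card_product, h1]) (h2.product univ_nonempty) h3 h4 h5 h6 h7 h8
    unfold Good at h9 ⊢
    rw [den_prod, ← cl_prod, ← cl_prod] at h9
    exact h9

end proj

end Pool.Agent.Work.MP_db9399_sw.helper84
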